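import Pool.Agent.P.MP_ddb4d7_al.TwoGroup

/-!
A metanilpotent group `G` of order 384, a subgroup `Z` of order two of the intersection of the
centre and the Frattini subgroup, and a Fitting class containing `G / Z` but not `G`.
-/

namespace Pool.Agent.Results.MP_ddb4d7_al.Counterexample

/-- `X` is a Fitting class: a nonempty class of finite soluble groups closed under isomorphism,
normal subgroups, and products of two normal subgroups. -/
structure IsFittingClass (X : (G : Type) → [Group G] → Prop) : Prop where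
  finite_solvable : ∀ (G : Type) [Group G], X G → Finite G ∧ Group.IsSolvable G
  nonempty : ∃ (G : Type) (_ : Group G), X G
  iso_closed : ∀ (G H : Type) [Group G] [Group H], Nonempty (G ≃* H) → X G → X H
  normal_closed : ∀ (G : Type) [Group G] (N : Subgroup G), N.Normal → X G → X N
  prod_closed : ∀ (G : Type) [Group G] [Finite G] [Group.IsSolvable G] (N₁ N₂ : Subgroup G),
    N₁.Normal → N₂.Normal → X N₁ → X N₂ → X (N₁ ⊔ N₂ : Subgroup G)

/-- `G` has a nilpotent normal subgroup with nilpotent quotient. -/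
def IsMetanilpotent (G : Type) [Group G] : Prop :=
  ∃ (N : Subgroup G) (_ : N.Normal), Group.IsNilpotent N ∧ Group.IsNilpotent (G ⧸ N)

open Pool.Agent.P.MP_ddb4d7_al Function

/-- The class cut out by the Fitting pair. -/
def Cls (G : Type) [Group G] : Prop :=
  ∃ _ : Finite G, Group.IsSolvable G ∧ ∀ g : G, dd SG.chi g = 1

lemma cls_of_card (G : Type) [Group G] [Finite G] [Group.IsSolvable G] (h : ¬ 128 ∣ Nat.card G) :
    Cls G := by
  refine ⟨inferInstance, inferInstance, fun g => ?_⟩
  haveI : IsEmpty (Sig SG G) := ⟨fun X => h (by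
    rw [← SG.card]
    exact Subgroup.card_dvd_of_injective (sec X) (sec_inj X))⟩
  unfold dd
  exact Finset.prod_of_isEmpty _

lemma cls_fitting : IsFittingClass Cls where
  finite_solvable := fun G _ h => ⟨h.1, h.2.1⟩
  nonempty := ⟨Unit, inferInstance, cls_of_card Unit (by simp)⟩
  iso_closed := by
    rintro G H _ _ ⟨e⟩ ⟨hf, hs, hd⟩
    haveI : Finite H := Finite.of_equiv G e.toEquiv
    refine ⟨inferInstance, Group.isSolvable_of_surjective (f := e.toMonoidHom) e.surjective, fun h => ?_⟩
    have hr : e.toMonoidHom.range = ⊤ := MonoidHom.range_eq_top.2 e.surjective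
    have := dd_map SG.chi SG.chi_kills e.toMonoidHom e.injective (hr ▸ inferInstance) (e.symm h)
    rw [hd] at this
    simpa using this
  normal_closed := by
    rintro G _ N hN ⟨hf, hs, hd⟩
    refine ⟨inferInstance, inferInstance, fun n => ?_⟩
    rw [← dd_map SG.chi SG.chi_kills N.subtype N.subtype_injective
      (by rw [Subgroup.range_subtype]; exact hN) n, hd]
  prod_closed := by
    rintro G _ _ _ N₁ N₂ h₁ h₂ ⟨_, _, hd₁⟩ ⟨_, _, hd₂⟩
    refine ⟨inferInstance, inferInstance, fun g => ?_⟩
    have key : ∀ (N : Subgroup G) (hle : N ≤ N₁ ⊔ N₂), N.Normal → (∀ n : N, dd SG.chi n = 1) →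
        N ≤ ((ddHom (G := (N₁ ⊔ N₂ : Subgroup G)) SG.chi).ker).map (N₁ ⊔ N₂).subtype := by
      intro N hle hN hd n hn
      refine ⟨Subgroup.inclusion hle ⟨n, hn⟩, ?_, rfl⟩
      change dd SG.chi (Subgroup.inclusion hle ⟨n, hn⟩) = 1
      rw [dd_map SG.chi SG.chi_kills (Subgroup.inclusion hle) (Subgroup.inclusion_injective hle)
        (by rw [Subgroup.inclusion_range]; exact hN.subgroupOf _), hd]
    obtain ⟨x, hx, hxg⟩ := sup_le (key N₁ le_sup_left h₁ hd₁) (key N₂ le_sup_right h₂ hd₂) g.2
    have : x = g := Subtype.ext hxg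
    rw [← this]
    exact hx

/-- The cyclic group of order three generated by the automorphism. -/
abbrev C3 : Type := Subgroup.zpowers SG.theta

/-- The group of order 384. -/
abbrev GG : Type := SG ⋊[(Subgroup.zpowers SG.theta).subtype] C3

lemma theta_ne : SG.theta ≠ 1 := fun h => SG.chi_theta (by rw [h, map_one])

lemma card_C3 : Nat.card C3 = 3 := by
  rw [Nat.card_zpowers]
  have : Fact (Nat.Prime 3) := ⟨Nat.prime_three⟩
  refine orderOf_eq_prime ?_ theta_ne
  ext1 u
  exact SG.th_three u

instance : Finite C3 := Nat.finite_of_card_ne_zero (by rw [card_C3]; norm_num)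

lemma card_GG : Nat.card GG = 384 := by
  rw [SemidirectProduct.card, SG.card, card_C3]

instance : Finite GG := Nat.finite_of_card_ne_zero (by rw [card_GG]; norm_num)

lemma pSG : IsPGroup 2 SG := IsPGroup.of_card (n := 7) SG.card

instance : Group.IsNilpotent SG :=
  haveI : Fact (Nat.Prime 2) := ⟨Nat.prime_two⟩
  pSG.isNilpotent

instance : Group.IsNilpotent C3 :=
  haveI : Fact (Nat.Prime 3) := ⟨Nat.prime_three⟩
  (IsPGroup.of_card (p := 3) (n := 1) card_C3).isNilpotent

instance : Group.IsSolvable GG :=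
  Group.isSolvable_of_ker_le_range (SemidirectProduct.inl : SG →* GG) SemidirectProduct.rightHom
    SemidirectProduct.range_inl_eq_ker_rightHom.ge

lemma mn_GG : IsMetanilpotent GG := by
  refine ⟨(SemidirectProduct.rightHom : GG →* C3).ker, inferInstance, ?_, ?_⟩
  · rw [← SemidirectProduct.range_inl_eq_ker_rightHom]
    exact Group.nilpotent_of_mulEquiv (MonoidHom.ofInjective SemidirectProduct.inl_injective)
  · exact Group.nilpotent_of_mulEquiv
      (QuotientGroup.quotientKerEquivOfSurjective _ SemidirectProduct.rightHom_surjective).symm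

/-- The central involution. -/
def z0 : SG := ⟨0, 0, 0, 0, 1, 0, 0⟩

lemma z0_central : ∀ u : SG, u * z0 = z0 * u := by decide +kernel

lemma z_central : (SemidirectProduct.inl z0 : GG) ∈ Subgroup.center GG := by
  rw [Subgroup.mem_center_iff]
  intro g
  have hfix : ∀ t : C3, (t : MulAut SG) z0 = z0 := by
    rintro ⟨t, ht⟩
    have : Subgroup.zpowers SG.theta ≤ MulAction.stabilizer (MulAut SG) z0 :=
      (Subgroup.zpowers_le_of_mem (by
        rw [MulAction.mem_stabilizer_iff]
        change SG.th z0 = z0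
        decide +kernel))
    exact this ht
  ext1
  · simp [hfix, z0_central]
  · simp

lemma z_frattini : (SemidirectProduct.inl z0 : GG) ∈ frattini GG := by
  unfold frattini Order.radical
  simp only [Subgroup.mem_iInf]
  intro M hM
  by_contra hz
  set z : GG := SemidirectProduct.inl z0 with hzdef
  have hzz : z * z = 1 := by
    rw [hzdef, ← map_mul, (by decide +kernel : z0 * z0 = 1), map_one]
  have hc : ∀ g : GG, g * z = z * g := Subgroup.mem_center_iff.1 z_central
  let M' : Subgroup GG :=
    { carrier := {g | g ∈ M ∨ g * z ∈ M}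
      one_mem' := Or.inl M.one_mem
      mul_mem' := by
        rintro a b (ha | ha) (hb | hb)
        · exact Or.inl (M.mul_mem ha hb)
        · exact Or.inr (by rw [mul_assoc]; exact M.mul_mem ha hb)
        · refine Or.inr ?_
          have := M.mul_mem ha hb
          rwa [mul_assoc, ← hc b, ← mul_assoc] at this
        · refine Or.inl ?_
          have := M.mul_mem ha hb
          rwa [mul_assoc, ← mul_assoc z, ← hc b, mul_assoc b, hzz, mul_one] at this
      inv_mem' := by
        rintro a (ha | ha)
        · exact Or.inl (M.inv_mem ha)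
        · refine Or.inr ?_
          have := M.inv_mem ha
          rwa [mul_inv_rev, inv_eq_of_mul_eq_one_right hzz, ← hc] at this }
  have hlt : M < M' := lt_of_le_of_ne (fun g hg => Or.inl hg) (fun h => hz (by
    rw [h]
    exact Or.inr (by rw [hzz]; exact M.one_mem)))
  have htop := hM.2 M' hlt
  have hsq : ∀ g : GG, g * g ∈ M := fun g => by
    have hg : g ∈ M' := htop ▸ Subgroup.mem_top g
    rcases hg with hg | hg
    · exact M.mul_mem hg hg
    · have := M.mul_mem hg hg
      rwa [mul_assoc, ← mul_assoc z, ← hc g, mul_assoc g, hzz, mul_one] at this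
  refine hz ?_
  rw [hzdef, (by decide +kernel :
    z0 = SG.E1 * SG.E1 * (SG.E2 * SG.E2) * (SG.E1 * SG.E2 * (SG.E1 * SG.E2))),
    map_mul, map_mul, map_mul, map_mul, map_mul _ (SG.E1 * SG.E2)]
  exact M.mul_mem (M.mul_mem (hsq _) (hsq _)) (hsq _)

lemma card_Z : Nat.card (Subgroup.zpowers (SemidirectProduct.inl z0 : GG)) = 2 := by
  rw [Nat.card_zpowers]
  haveI : Fact (Nat.Prime 2) := ⟨Nat.prime_two⟩
  refine orderOf_eq_prime ?_ ?_
  · rw [pow_two, ← map_mul, (by decide +kernel : z0 * z0 = 1), map_one]
  · rw [Ne, map_eq_one_iff _ SemidirectProduct.inl_injective]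
    decide +kernel

lemma sig_GG (X : Sig SG GG) : X.1 = (SemidirectProduct.inl : SG →* GG).range := by
  have hle : X.1 ≤ (SemidirectProduct.inl : SG →* GG).range := by
    rw [← sec_range, SemidirectProduct.range_inl_eq_ker_rightHom]
    rintro _ ⟨u, rfl⟩
    rw [MonoidHom.mem_ker]
    set t : C3 := SemidirectProduct.rightHom (sec X u) with ht
    have h4 : t * t * (t * t) = 1 := by
      rw [ht, ← map_mul, ← map_mul, ← map_mul, ← map_mul, SG.pow_four, map_one, map_one]
    have h3 : t ^ 3 = 1 := by rw [← card_C3]; exact pow_card_eq_one'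
    have : t * t * (t * t) = t ^ 3 * t := by simp only [pow_succ, pow_zero, one_mul, mul_assoc]
    rw [this, h3, one_mul] at h4
    exact h4
  refine Subgroup.eq_of_le_of_card_ge hle (le_of_eq ?_)
  rw [← sec_range, ← Nat.card_congr (MonoidHom.ofInjective (sec_inj X)).toEquiv,
    ← Nat.card_congr (MonoidHom.ofInjective
      (SemidirectProduct.inl_injective : Injective (SemidirectProduct.inl : SG →* GG))).toEquiv]

lemma not_cls : ¬ Cls GG := by
  rintro ⟨_, _, hd⟩
  let X0 : Sig SG GG := ⟨_, SemidirectProduct.inl, SemidirectProduct.inl_injective, rfl⟩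
  have hall : ∀ X : Sig SG GG, X = X0 := fun X => Subtype.ext (sig_GG X)
  let t : C3 := ⟨SG.theta, Subgroup.mem_zpowers _⟩
  have h := hd (SemidirectProduct.inr t)
  unfold dd at h
  rw [Finset.prod_eq_single X0 (fun X _ hX => absurd (hall X) hX)
    (fun hX => absurd (Finset.mem_univ _) hX), hall (act _ _)] at h
  obtain ⟨τ, hτ⟩ := exists_tau (sec_inj X0) SemidirectProduct.inl_injective (sec_range X0)
  unfold kap at h
  rw [cmp_eq SG.chi (sec_inj X0) (τ⁻¹ * SG.theta * τ) (fun u => ?_)] at h
  · rw [map_mul, map_mul, map_inv, inv_mul_cancel_comm] at h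
    exact SG.chi_theta h
  · rw [MonoidHom.comp_apply, cj_apply, hτ, hτ, ← map_inv, ← SemidirectProduct.inl_aut]
    simp [t]

theorem result :
    ∃ (G : Type) (_ : Group G) (_ : Finite G), Group.IsSolvable G ∧ IsMetanilpotent G ∧
      ∃ (Z : Subgroup G) (_ : Z.Normal), Z ≤ Subgroup.center G ⊓ frattini G ∧
        ∃ X : (G : Type) → [Group G] → Prop, IsFittingClass X ∧ X (G ⧸ Z) ∧ ¬ X G := by
  have hZ : Subgroup.zpowers (SemidirectProduct.inl z0 : GG) ≤ Subgroup.center GG :=
    Subgroup.zpowers_le_of_mem z_central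
  haveI hN : (Subgroup.zpowers (SemidirectProduct.inl z0 : GG)).Normal :=
    ⟨fun n hn g => by
      rw [Subgroup.mem_center_iff.1 (hZ hn) g, mul_inv_cancel_right]
      exact hn⟩
  refine ⟨GG, inferInstance, inferInstance, inferInstance, mn_GG, _, hN,
    le_inf hZ (Subgroup.zpowers_le_of_mem z_frattini), Cls, cls_fitting, cls_of_card _ ?_,
    not_cls⟩
  have h := Subgroup.card_eq_card_quotient_mul_card_subgroup
    (Subgroup.zpowers (SemidirectProduct.inl z0 : GG))
  rw [card_GG, card_Z] at h
  have h2 : Nat.card (GG ⧸ Subgroup.zpowers (SemidirectProduct.inl z0 : GG)) = 192 :=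
    Nat.eq_of_mul_eq_mul_right (by norm_num : 0 < 2) h.symm
  exact fun h3 => absurd (h2 ▸ h3) (by norm_num)

end Pool.Agent.Results.MP_ddb4d7_al.Counterexample
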